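import Pool.Agent.Helper87.HQ.St

/-! Module C10 of project HQ: eigenvalue zero. -/

set_option autoImplicit false

namespace Pool.Agent.Helper57.HQ

open Pool.Agent.Helper87.HQ Set

private lemma const_of_zero {f : ℝ → ℝ} {l : ℝ} (hl : 0 < l)
    (hf : ∀ x ∈ Icc (0 : ℝ) l, HasDerivWithinAt f 0 (Icc (0 : ℝ) l) x) :
    ∀ x ∈ Icc (0 : ℝ) l, f x = f 0 := by
  refine constant_of_derivWithin_zero (fun x hx => (hf x hx).differentiableWithinAt) ?_
  intro x hx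
  have hx' : x ∈ Icc (0 : ℝ) l := ⟨hx.1, hx.2.le⟩
  exact (hf x hx').derivWithin (uniqueDiffOn_Icc hl x hx')

private lemma onEdge_le {G : MetricGraph} {F : G.Pt → ℝ} {M : ℝ} (h : ∀ y, F y ≤ M) (e : G.E)
    (x : ℝ) : G.onEdge F e x ≤ M := by
  unfold MetricGraph.onEdge
  split_ifs <;> exact h _

theorem hC10 : StC10 := by
  intro G α e hne
  obtain ⟨x0, hx0, F, hF, hF0, hmax⟩ := hne
  obtain ⟨D, hD, hK⟩ := hF
  have hl := G.len_pos e
  have hx0' : x0 ∈ Icc (0 : ℝ) (G.len e) := ⟨hx0.1.le, hx0.2.le⟩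
  have hval : ∀ x (hx : x ∈ Ioo (0 : ℝ) (G.len e)),
      G.onEdge F e x = F (Sum.inr ⟨e, ⟨x, hx⟩⟩) := by
    intro x hx
    unfold MetricGraph.onEdge
    rw [dif_pos hx]
  have hloc : IsLocalMax (G.onEdge F e) x0 := by
    refine Filter.Eventually.of_forall fun x => ?_
    rw [hval x0 hx0]
    exact onEdge_le hmax e x
  have hderiv : HasDerivAt (G.onEdge F e) (D e x0) x0 :=
    ((hD e x0 hx0').1).hasDerivAt (Icc_mem_nhds hx0.1 hx0.2)
  have hz : D e x0 = 0 := hloc.hasDerivAt_eq_zero hderiv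
  have hDc : ∀ x ∈ Icc (0 : ℝ) (G.len e), D e x = D e 0 := by
    refine const_of_zero hl fun x hx => ?_
    have := (hD e x hx).2
    simpa using this
  have hD0 : ∀ x ∈ Icc (0 : ℝ) (G.len e), D e x = 0 := by
    intro x hx
    rw [hDc x hx, ← hDc x0 hx0', hz]
  have hfc : ∀ x ∈ Icc (0 : ℝ) (G.len e), G.onEdge F e x = G.onEdge F e 0 := by
    refine const_of_zero hl fun x hx => ?_
    have := (hD e x hx).1
    rwa [hD0 x hx] at this
  refine ⟨0, G.len e, hl, fun x hx => ?_⟩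
  refine ⟨hx, F, ⟨D, hD, hK⟩, hF0, fun y => ?_⟩
  rw [← hval x hx, hfc x ⟨hx.1.le, hx.2.le⟩, ← hfc x0 hx0', hval x0 hx0]
  exact hmax y

end Pool.Agent.Helper57.HQ
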